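import Pool.Agent.W552.Defs
import Pool.Agent.H914R2.DDefs
import Pool.Agent.Y138.KC.Defs

/-!
# Specialization: definitions
-/

set_option autoImplicit false

open CategoryTheory AlgebraicGeometry

universe u v u₀ v₀

namespace Pool.Agent.Y138.KS

open Pool.Agent.H914 Pool.Agent.H914.VarClass Pool.Agent.H914.VarClass.Obj
  Pool.Agent.H914.WeilCohomology Pool.Agent.H281R3.HT Pool.Agent.W552

/-- Let `C`, `C₀` be the sets of cycles on two varieties, `A`, `A₀` the cohomology rings, `cl`, `cl₀`
the cycle class maps, `cyc j z` the statement that `z` has codimension `j`, `deg`, `deg₀` the degrees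
of zero-cycles, `n` the dimension and `D`, `D₀` divisors. There are a map `s` between the cycles which
preserves the codimension and the degree of zero-cycles, and an injective homomorphism `φ` between
the cohomology rings which is compatible with `s` and the cycle classes and maps the class of `D` to
the class of `D₀`. -/
def HasSpecialization {C C₀ A A₀ : Type*} [Ring A] [Ring A₀] (cl : C → A) (cl₀ : C₀ → A₀)
    (cyc : ℕ → C → Prop) (cyc₀ : ℕ → C₀ → Prop) (deg : C → ℚ) (deg₀ : C₀ → ℚ) (n : ℕ) (D : C)
    (D₀ : C₀) : Prop :=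
  ∃ (s : C → C₀) (φ : A →+* A₀), Function.Injective φ ∧ cl₀ D₀ = φ (cl D) ∧
    (∀ j z, cyc j z → cyc₀ j (s z) ∧ cl₀ (s z) = φ (cl z)) ∧
    ∀ z, cyc n z → deg₀ (s z) = deg z

variable {k : Type u} [Field k] {𝒱 : VarClass k} {ops : CycleOps 𝒱}
  {k₀ : Type u₀} [Field k₀] {𝒱₀ : VarClass k₀} {ops₀ : CycleOps 𝒱₀}

/-- The cycle class map, as a map of sets. -/
noncomputable def cls (W : WeilCohomology.{u, v} ops) (X : 𝒱.Obj) (z : X.Cycles) : W.H X := W.cl X z

/-- The variety `P.X` over `k`, with the divisor `P.D`, *specializes* to the variety `P₀.X` over `k₀`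
with the divisor `P₀.D`: there are a map `s` from the cycles on `P.X` to the cycles on `P₀.X` which
preserves the codimension and the degree of zero-cycles, and an injective homomorphism `φ` between
the cohomology rings which is compatible with `s` and the cycle classes and maps the class of `P.D`
to the class of `P₀.D`. (For a smooth projective scheme over a discrete valuation ring, with a
divisor, `s` is the specialization of cycles and `φ` the specialization isomorphism of `ℓ`-adic
cohomology.) -/
def SpecializesTo (W : WeilCohomology.{u, v} ops) (P : Polarized 𝒱)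
    (W₀ : WeilCohomology.{u₀, v₀} ops₀) (P₀ : Polarized 𝒱₀) : Prop :=
  P.X.dim = P₀.X.dim ∧ HasSpecialization (cls W P.X) (cls W₀ P₀.X) P.X.IsCyc P₀.X.IsCyc
    P.X.V.degCycle P₀.X.V.degCycle P.X.dim P.D P₀.D

open NumberField Pool.Agent.W534 Pool.Agent.TH121.KT Pool.Agent.W517.K3 Pool.Agent.Y138.KC

variable {W : WeilCohomology.{u, v} ops} {p : ℕ} [Fact p.Prime] {E : Type} [Field E]
  [NumberField E] [IsCMField E]

/-- `Q` is a power `X ^ (n + 1)`, with a sum of divisors `D i` on the factors, of a variety `X` over
an algebraic closure of the field with `p` elements, whose cohomology is of the type of a K3 surface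
of finite height with the Frobenius number `α` in the CM field `E` of degree `2 d`, of local degree
`m`. The divisors satisfy the hard Lefschetz theorem, the standard conjecture of Hodge type holds for
`X × X` and `D i ⊞ D j`, and either `n + 1 ≤ 3` and `(d, m)` is not one of nine exceptional pairs, or
`m` is odd and `(d, m)` is not one of four exceptional pairs. -/
def IsK3Power (Φ : FrobSystem W p) (α : E) (Q : Polarized 𝒱) : Prop :=
  ∃ (X : 𝒱.Obj) (a e d n : ℕ) (D : Fin (n + 1) → X.Cycles),
    IsK3Frobenius p a α ∧ HasWeilNumber Φ X e α ∧ Module.finrank ℚ E = 2 * d ∧ d ≤ 10 ∧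
    ((n + 1 ≤ 3 ∧ (d, localDegree p α) ∉ exceptionalPairs) ∨
      (Odd (localDegree p α) ∧ (d, localDegree p α) ∉ exceptionalOddPairs)) ∧
    (∀ i, X.IsCyc 1 (D i) ∧ 0 < X.V.degCycle (divPow ops (D i) X.dim X.V.fundCycle) ∧
      HardLefschetz W X (D i)) ∧
    (∀ i j, HodgeType W (Polarized.prod ops ⟨X, D i⟩ ⟨X, D j⟩).X
      (Polarized.prod ops ⟨X, D i⟩ ⟨X, D j⟩).D) ∧
    Q = nest ops n fun i => ⟨X, D i⟩

end Pool.Agent.Y138.KS
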