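import Pool.Agent.Y138.KH.Main
import Pool.Agent.Y138.KS.Defs

/-!
# Specialization of the standard conjecture of Hodge type
-/

set_option autoImplicit false

open CategoryTheory AlgebraicGeometry

universe u v u₀ v₀

namespace Pool.Agent.Y138.KS

open Pool.Agent.H914 Pool.Agent.H914.VarClass Pool.Agent.H914.VarClass.Obj
  Pool.Agent.H914.WeilCohomology Pool.Agent.H281R3.HT Pool.Agent.W552

variable {k : Type u} [Field k] {𝒱 : VarClass k} {ops : CycleOps 𝒱}
  {k₀ : Type u₀} [Field k₀] {𝒱₀ : VarClass k₀} {ops₀ : CycleOps 𝒱₀}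
  {W : WeilCohomology.{u, v} ops} {W₀ : WeilCohomology.{u₀, v₀} ops₀}
  {P : Polarized 𝒱} {P₀ : Polarized 𝒱₀}

theorem cl_divPow_pow {X : 𝒱.Obj} (D : X.Cycles) (i : ℕ) (z : X.Cycles) :
    W.cl X (divPow ops D i z) = W.cl X D ^ i * W.cl X z := by
  induction i with
  | zero => rw [pow_zero, one_mul]; rfl
  | succ i ih =>
    rw [divPow, Function.iterate_succ_apply', W.cl_mul, pow_succ', mul_assoc]
    congr 1

/-- **Specialization.** The conjecture of Hodge type for the special fibre implies the conjecture for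
the generic fibre. -/
theorem hodge_spec (hD : P.X.IsCyc 1 P.D) (hD₀ : P₀.X.IsCyc 1 P₀.D)
    (h : SpecializesTo W P W₀ P₀) (hH : HodgeType W₀ P₀.X P₀.D) : HodgeType W P.X P.D := by
  obtain ⟨hdim, s, φ, hφ, hφD, hs, hdeg⟩ := h
  simp only [cls] at hφD hs
  intro j hj z hz hprim hz0
  obtain ⟨h1, h2⟩ := hs j z hz
  have h3 : ∀ i, W₀.cl P₀.X (divPow ops₀ P₀.D i (s z)) = φ (W.cl P.X (divPow ops P.D i z)) := by
    intro i
    rw [cl_divPow_pow, cl_divPow_pow, hφD, h2, map_mul, map_pow]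
  have h4 := hH j (hdim ▸ hj) (s z) h1 (by rw [← hdim, h3, hprim, map_zero]) (by
    rw [h2]
    exact fun h0 => hz0 (hφ (h0.trans (map_zero φ).symm)))
  have hc : P.X.IsCyc P.X.dim (ops.mul z (divPow ops P.D (P.X.dim - 2 * j) z)) := by
    have := ops.mul_mem hz (divPow_mem (ops := ops) hD (P.X.dim - 2 * j) hz)
    rwa [show j + (j + (P.X.dim - 2 * j)) = P.X.dim by omega] at this
  have hc₀ : P₀.X.IsCyc P₀.X.dim
      (ops₀.mul (s z) (divPow ops₀ P₀.D (P₀.X.dim - 2 * j) (s z))) := by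
    have := ops₀.mul_mem h1 (divPow_mem (ops := ops₀) hD₀ (P₀.X.dim - 2 * j) h1)
    rwa [show j + (j + (P₀.X.dim - 2 * j)) = P₀.X.dim by omega] at this
  have h5 : P₀.X.V.degCycle (ops₀.mul (s z) (divPow ops₀ P₀.D (P₀.X.dim - 2 * j) (s z))) =
      P.X.V.degCycle (ops.mul z (divPow ops P.D (P.X.dim - 2 * j) z)) := by
    rw [← hdeg _ hc]
    have h6 : P₀.X.IsCyc P₀.X.dim (s (ops.mul z (divPow ops P.D (P.X.dim - 2 * j) z))) :=
      (congrArg (fun n => P₀.X.IsCyc n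
        (s (ops.mul z (divPow ops P.D (P.X.dim - 2 * j) z)))) hdim).mp (hs _ _ hc).1
    apply Rat.cast_injective (α := W₀.K)
    rw [← W₀.tr_cl hc₀, ← W₀.tr_cl h6, (hs _ _ hc).2, W₀.cl_mul, W.cl_mul, h2, map_mul φ, h3,
      hdim]
  rw [h5] at h4
  exact h4

/-- **Hodge type and A imply D.** -/
theorem homEqNum_of_hodge {X : 𝒱.Obj} {D : X.Cycles} (hD : X.IsCyc 1 D)
    (hA : LefschetzA W X D) (hH : HodgeType W X D) : HomEqNum W X := by
  classical
  have hC := algPart hD hA hH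
  have hL : IsHom (W.gr X) 2 (LinearMap.mulLeft W.K (W.cl X D)) := mulLeft_isHom hD
  have hbd : ∀ i, 2 * X.dim + 1 ≤ i → W.gr X i = ⊥ := W_hbd
  set L : Module.End W.K (W.H X) := LinearMap.mulLeft W.K (W.cl X D) with hLdef
  set n := X.dim with hn
  intro l hl z hz hnum
  by_contra h0
  have hc : W.cl X z ∈ algClasses W X l := ⟨z, hz, rfl⟩
  obtain ⟨u, hu, hs⟩ := hC.decomp hL hbd hc
  have hex : ∃ b ∈ Finset.range (l + 1), (L ^ b) (u b) ≠ 0 := by
    by_contra h1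
    push Not at h1
    exact h0 (hs.trans (Finset.sum_eq_zero h1))
  obtain ⟨b, hb, hb0⟩ := hex
  rw [Finset.mem_range] at hb
  obtain ⟨h1, h2, h3⟩ := hu b (by omega)
  have hub : u b ≠ 0 := fun h => hb0 (by rw [h, map_zero])
  have h4 := h2 hub
  have h5 : b ≤ n - 2 * (l - b) := by
    by_contra h6
    exact hb0 (L_pow_gt (n := n) (i := 2 * (l - b)) h3 (by omega))
  have h7 := hC.map_L_pow (n - 2 * (l - b) - b) h1
  rw [show l - b + (n - 2 * (l - b) - b) = n - l by omega] at h7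
  obtain ⟨w, hw, hwy⟩ := h7
  obtain ⟨s, hs1, hs2⟩ := hC.pos (l - b) h4 (u b) h1 h3 hub
  have hB : bil W X (W.cl X z) ((L ^ (n - 2 * (l - b) - b)) (u b)) = s := by
    rw [hs, map_sum, LinearMap.sum_apply, Finset.sum_eq_single b]
    · rw [hC.self_pow, ← Module.End.mul_apply, ← pow_add,
        show b + (n - 2 * (l - b) - b) = n - 2 * (l - b) by omega]
      exact hs1
    · intro b' hb' hne
      rw [Finset.mem_range] at hb'
      obtain ⟨h1', h2', h3'⟩ := hu b' (by omega)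
      by_cases hu0 : u b' = 0
      · rw [hu0, map_zero, map_zero, LinearMap.zero_apply]
      · exact hC.cross_zero (by omega) (by omega) hne (h2' hu0) h4 h3' h3 h5
    · intro h
      exact absurd (Finset.mem_range.2 hb) h
  have h8 : bil W X (W.cl X z) ((L ^ (n - 2 * (l - b) - b)) (u b)) = 0 := by
    rw [← hwy, bil_apply, ← W.cl_mul, W.tr_cl, hnum w hw, Rat.cast_zero]
    have := ops.mul_mem hz hw
    rwa [show l + (X.dim - l) = X.dim by omega] at this
  rw [h8] at hB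
  have h9 : s = 0 := by exact_mod_cast hB.symm
  rw [h9, mul_zero] at hs2
  exact lt_irrefl _ hs2

theorem prod_isCyc {P Q : Polarized 𝒱} (hP : P.X.IsCyc 1 P.D) (hQ : Q.X.IsCyc 1 Q.D) :
    (P.prod ops Q).X.IsCyc 1 (P.prod ops Q).D :=
  SmVar.IsCyc.add (ops.pull_mem _ hP) (ops.pull_mem _ hQ)

theorem nest_isCyc : ∀ (n : ℕ) (P : Fin (n + 1) → Polarized 𝒱),
    (∀ i, (P i).X.IsCyc 1 (P i).D) → (nest ops n P).X.IsCyc 1 (nest ops n P).D
  | 0, _, h => h 0
  | n + 1, P, h => prod_isCyc (h 0) (nest_isCyc n (fun i => P i.succ) fun i => h i.succ)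

section K3

open NumberField Pool.Agent.W534 Pool.Agent.TH121.KT Pool.Agent.W517.K3 Pool.Agent.Y138.KC
  Pool.Agent.Y138.KH

variable {p : ℕ} [Fact p.Prime] {E : Type} [Field E] [NumberField E] [IsCMField E]

theorem IsK3Power.hodge [IsAlgClosed W.K] {Φ : FrobSystem W p} {α : E} {Q : Polarized 𝒱}
    (h : IsK3Power Φ α Q) (ι : Qb →+* PadicAlgCl p) :
    Q.X.IsCyc 1 Q.D ∧ HodgeType W Q.X Q.D := by
  obtain ⟨X, a, e, d, n, D, hα, hX, hd, hd10, hex, hD, hH2, rfl⟩ := h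
  have hgood : Good d (localDegree p α) (n + 1) := ⟨hd10, hex⟩
  have hgood2 : Good d (localDegree p α) 2 :=
    ⟨hd10, hex.imp_left fun h => ⟨by norm_num, h.2⟩⟩
  exact ⟨nest_isCyc n _ fun i => (hD i).1, hodge_powers ι hα hd rfl hgood hgood2 hX
    (fun i => (hD i).1) (fun i => (hD i).2.1) (fun i => (hD i).2.2) hH2⟩

end K3

end Pool.Agent.Y138.KS
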